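import Pool.Agent.Helper78_QEP.Asm
import Pool.Agent.Helper92_QEP.REG

/-!
# Real hyperbolic spaces in complex hyperbolic spaces times Euclidean spaces

For every `n ≥ 2` real hyperbolic space `H^(n+1)` embeds quasi-isometrically in the Riemannian
product `CH^n × R^(2n-2)`.  Hence, for the pairs `X = H^(n+1)`, `Y = CH^n` (the totally geodesic
real hyperbolic subspaces of `Y` have dimension at most `n` for `n ≥ 2`), the question whether a
Euclidean factor can be removed is equivalent to the existence of a quasi-isometric embedding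
`X → Y`.

Idea of the proof: the Peano curve `R → C` has a 1/2-Hoelder lift `γ` to the Heisenberg group; with
a central direction, `n - 1` commuting copies give a 1/2-Hoelder map from `R^n` to the boundary
`Heis_(n-1)` of `CH^n`, hence a Lipschitz map `H^(n+1) → CH^n`.  This map is far from injective;
truncated base-3 digit sums of the position, with cut-offs at the times at which the curve crosses a
line, are Lipschitz functions on `H^(n+1)` which separate the sheets at critical speed.
-/

namespace Pool.Agent.Results.MP_dc0713_gt.CriticalComplexPairs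

open Pool.Agent.QEP

/-- Reindexing of the flat factor is isometric for `dProd`. -/
theorem dProd_reindex {k : ℕ} {ι κ : Type} [Fintype ι] [Fintype κ] (e : ι ≃ κ)
    (p q : HComplex k × EuclideanSpace ℝ ι) :
    dProd (p.1, LinearIsometryEquiv.piLpCongrLeft 2 ℝ ℝ e p.2)
      (q.1, LinearIsometryEquiv.piLpCongrLeft 2 ℝ ℝ e q.2) = dProd p q := by
  unfold dProd
  rw [← map_sub, LinearIsometryEquiv.norm_map]

theorem aux (k : ℕ) (hk : 1 ≤ k) :
    ∃ (L C : ℝ) (F : HReal (k + 1) → HComplex k × EuclideanSpace ℝ (Fin (2 * k))),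
      1 ≤ L ∧ 0 ≤ C ∧ ∀ p q : HReal (k + 1),
        L⁻¹ * dReal p q - C ≤ dProd (F p) (F q) ∧ dProd (F p) (F q) ≤ L * dReal p q + C := by
  have hreg : REGStmt := H92.reg H78.sgn' H78.hol' H78.gli' H78.sep'
  obtain ⟨L, C, F, hL, hC, h⟩ := H78.fin' (H78.glo' hreg) k hk
  refine ⟨L, C, fun p => ((F p).1, LinearIsometryEquiv.piLpCongrLeft 2 ℝ ℝ
    ((Equiv.prodComm (Fin k) (Fin 2)).trans finProdFinEquiv) (F p).2), hL, hC, fun p q => ?_⟩
  rw [dProd_reindex _ (F p) (F q)]
  exact h p q

/-- For every `n ≥ 2` real hyperbolic space `H^(n+1)` (upper half space `HReal n` with its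
hyperbolic distance `dReal`) embeds quasi-isometrically in the Riemannian product of complex
hyperbolic space `CH^n` (Siegel domain `HComplex (n - 1)` with the complex hyperbolic distance) and
Euclidean space of dimension `2 (n - 1)`; `dProd` is the distance of the product. -/
theorem result (n : ℕ) (hn : 2 ≤ n) :
    ∃ (L C : ℝ) (F : HReal n → HComplex (n - 1) × EuclideanSpace ℝ (Fin (2 * (n - 1)))),
      1 ≤ L ∧ 0 ≤ C ∧ ∀ p q : HReal n,
        L⁻¹ * dReal p q - C ≤ dProd (F p) (F q) ∧ dProd (F p) (F q) ≤ L * dReal p q + C := by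
  obtain ⟨k, rfl⟩ : ∃ k, n = k + 1 := ⟨n - 1, by omega⟩
  exact aux k (by omega)

end Pool.Agent.Results.MP_dc0713_gt.CriticalComplexPairs
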