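import Pool.Agent.Helper19_QSB.PubP
import Pool.Agent.Helper18_QSB.CRK

/-!
# A Euclidean factor does not help in equal rank or in equal corank; all ranks

**Model** (as in the file `SplitDomain`).  A datum `X : Dat` (a linear space `b` of vectors and a Lie
algebra `n` of strictly upper triangular matrices with `[diag b, n] ⊆ n`) stands for the solvable group
`N A` of its points `(x, c)`, `x ∈ n`, `c ∈ b`, i.e. of the matrices `exp x * diag (exp c)`, with the
distance `dist g h = log max (‖g⁻¹ h‖, ‖h⁻¹ g‖)`, bilipschitz to the Riemannian distance.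

**Symmetric spaces** (`IsSym X`).  `X` is the Iwasawa datum of a Lie algebra `g` of real matrices closed
under the transpose: `b` is the space of the diagonal matrices of `g`, the symmetric matrices of `g`
which commute with a certain `a ∈ b` are diagonal (so `b` is maximal abelian in the symmetric matrices
of `g`), and `n` is the sum of the eigenspaces of `ad a` in `g` with positive eigenvalues.

**Sources** (`IsSrc X`).  `X` is symmetric, `n` has a basis of root vectors with rational entries, the
roots separate the points of `b` (no Euclidean factor) and there is no factor of rank one except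
hyperbolic planes.

**HasA2 X**: `X` has a factor of type `A₂` with root spaces of dimension `> 1` (`SL_3 (ℂ)`, `SL_3 (ℍ)`,
`E_6(-26)`).  **Reduced Y**: no root of `Y` is the double of a root (no factor of type `BC`).

**Emb X Y**: an injective homomorphism of Lie algebras `n_X → n_Y` and an injective linear map
`b_X → b_Y` compatible with the actions (an injective homomorphism `N_X A_X → N_Y A_Y`).

**WEmb X Y**: the same, but the linear map `n_X → n_Y` respects the brackets of root vectors of two roots
only if they are not multiples of one simple root.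
-/

set_option autoImplicit false

namespace Pool.Agent.Results.MP_dc0713_gt.EqualRank

open Pool.Agent.QSX Pool.Agent.QSN Pool.Agent.QSB Matrix

/-- (1) **Main theorem.**  Let `X` be a source (`IsSrc`) and `Y` any datum.  (All ranks.)  If `X` has a
quasi-isometric embedding in `Y × E` for some real inner product space `E` (`QIF X Y`), then there is a
weak embedding of `X` in `Y` (`WEmb X Y`).  (Equal rank or equal corank.)  Suppose that `Y` is a symmetric
space of the same rank and that `X` has no factor of type `A₂` with root spaces of dimension `> 1`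
(`HasA2`) or no root of `Y` is the double of a root (`Reduced`); or that `dim n_Y ≤ dim n_X` (`dim n` is the
dimension minus the rank).  Then there is a quasi-isometric embedding of `X` in `Y × E` for some real inner
product space `E` if and only if there is an algebraic embedding of `X` in `Y`, if and only if there is a
quasi-isometric embedding of `X` in `Y` (`QI X Y`).
(2) Classical spaces which are covered: for an admissible division algebra `𝔻` of matrices (`AdmD`, for
instance the real numbers `aR`, the complex numbers `aC`, the quaternions `aH`) the space `datD n 𝔻` of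
`SL_n (𝔻)`, the spaces `datU p 𝔻 ε` and `datH p d 𝔻` of the isometry groups of Hermitian and skew
Hermitian forms (`Sp_(2 p) (ℝ)`, `SU (p, p)`, `Sp (p, p)`, `SO* (4 p)`; `SU (p, p + d)`,
`Sp (p, p + d)`), the space `datO p d` of `SO (p, p + d)`, and the hyperbolic plane.
(3) For all `X` and `Y` there is a datum `Z` whose space is the product of the spaces of `X` and `Y`
(with the maximum distance, bilipschitz to the product distance); it is symmetric, reduced, a source,
without factor `A₂` as above if `X` and `Y` are. -/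
theorem result :
    -- (1) the main theorem
    (∀ X Y : Dat, IsSrc X → (QIF X Y → WEmb X Y) ∧
      ((IsSym Y ∧ (¬ HasA2 X ∨ Reduced Y) ∧ Module.finrank ℝ X.b = Module.finrank ℝ Y.b) ∨
          Module.finrank ℝ Y.n ≤ Module.finrank ℝ X.n →
        (QIF X Y ↔ Emb X Y) ∧ (QI X Y ↔ Emb X Y))) ∧
    -- (2) classical spaces
    (∀ (k : ℕ) (𝔻 : Subalgebra ℝ (Matrix (Fin k) (Fin k) ℝ)), AdmD 𝔻 →
      (∀ n : ℕ, IsSym (datD n 𝔻) ∧ Reduced (datD n 𝔻) ∧ (3 ≤ n → IsSrc (datD n 𝔻)) ∧
        (4 ≤ n → ¬ HasA2 (datD n 𝔻))) ∧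
      (∀ (ε : ℝ) (hε : ε * ε = 1) (p : ℕ), IsSym (datU p 𝔻 ε hε) ∧ Reduced (datU p 𝔻 ε hε) ∧
        (2 ≤ p → SkD 𝔻 ε → IsSrc (datU p 𝔻 ε hε) ∧ ¬ HasA2 (datU p 𝔻 ε hε))) ∧
      (∀ p d : ℕ, IsSym (datH p d 𝔻) ∧
        (2 ≤ p → 1 ≤ d → SkD 𝔻 1 → IsSrc (datH p d 𝔻) ∧ ¬ HasA2 (datH p d 𝔻)))) ∧
    (AdmD aR ∧ AdmD aC ∧ AdmD aH ∧ SkD aR (-1) ∧ SkD aC 1 ∧ SkD aC (-1) ∧ SkD aH 1 ∧
      SkD aH (-1)) ∧
    (∀ p d : ℕ, IsSym (datO p d) ∧ Reduced (datO p d) ∧
      (2 ≤ p → 1 ≤ d → IsSrc (datO p d) ∧ ¬ HasA2 (datO p d))) ∧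
    (IsSrc (datD 2 aR) ∧ ¬ HasA2 (datD 2 aR)) ∧
    -- (3) products
    (∀ X Y : Dat, ∃ Z : Dat,
      (∃ φ : X.Pt × Y.Pt → Z.Pt, Function.Bijective φ ∧
        ∀ p q, Z.dist (φ p) (φ q) = max (X.dist p.1 q.1) (Y.dist p.2 q.2)) ∧
      Module.finrank ℝ Z.b = Module.finrank ℝ X.b + Module.finrank ℝ Y.b ∧
      (IsSym X → IsSym Y → IsSym Z ∧ (Reduced X → Reduced Y → Reduced Z)) ∧
      (IsSrc X → IsSrc Y → IsSrc Z ∧ (¬ HasA2 X → ¬ HasA2 Y → ¬ HasA2 Z))) := by
  refine ⟨fun X Y hX => ⟨H18.weak_pub X Y hX, fun h => h.elim (fun h => Out.pub X Y hX h.1 h.2.1 h.2.2)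
    (H18.crk_pub X Y hX)⟩, fun k 𝔻 hA => ⟨fun n => Out.pub_D hA, fun ε hε p => Out.pub_U hA ε hε,
    fun p d => Out.pub_H hA⟩, Out.pub_alg, Out.pub_O, Out.pub_H2, Out.pub_prod⟩

end Pool.Agent.Results.MP_dc0713_gt.EqualRank
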