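import Pool.Agent.Helper10_QSX.ASM
import Pool.Agent.Helper10_QSX.FIN
import Pool.Agent.Helper10_QSX.RSL
import Pool.Agent.Helper10_QSX.NSD
import Pool.Agent.Helper10_QSX.PUB
import Pool.Agent.Helper18_QSB.SLC

/-!
# A Euclidean factor does not help: some domains whose group is not split

The model is that of the file `SplitDomain`: a datum `X : Dat` (a linear space `b` of vectors and a Lie
algebra `n` of strictly upper triangular matrices with `[diag b, n] ⊆ n`) stands for the solvable group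
`N A` of its points `(x, c)`, `x ∈ n`, `c ∈ b`, i.e. of the matrices `exp x * diag (exp c)`, with the
distance `dist g h = log max (‖g⁻¹ h‖, ‖h⁻¹ g‖)`.  `Emb X Y` is an injective homomorphism
`N_X A_X → N_Y A_Y`, `Sov` the split data, `Cpx` a complex structure of a datum, `X.C` the
complexification of a datum, `datD n 𝔻` the datum of `SL_n (𝔻)`, `𝔻` an algebra of `k × k` matrices,
`SLd i n` the datum of `SL_n` over the real numbers (`i = 0`), the complex numbers (`i = 1`), the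
quaternions (`i = 2`).
-/

set_option autoImplicit false

namespace Pool.Agent.Results.MP_dc0713_gt.NonSplitDomains

open Pool.Agent.QSX Pool.Agent.QSX.Asm Pool.Agent.QSN Matrix

/-- (1) If the datum `X` contains the split datum `X₀` and `X` has a quasi-isometric embedding in
`Y × E`, `E` a real inner product space, then `Y` contains `X₀`; in particular the rank of `X₀` is at
most the rank of `Y`.
(2) If `Y` is complex and `X` lies between a split datum `X₀` and its complexification `X₀.C`, then the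
existence of a quasi-isometric embedding `X → Y × E`, of an algebraic embedding `X → Y` and of a
quasi-isometric embedding `X → Y` are equivalent.
(3) (2) holds for `X = X₀.C`, `X₀` any split datum; complexifications are complex.
(4) For `X = SL_n (𝔻)`, `Y = SL_m (𝔻')`, `n ≥ 2`, `𝔻 ⊆ 𝔻'` real algebras of `k × k` matrices (for
instance `ℝ ⊆ ℂ ⊆ ℍ`, `k = 4`), a quasi-isometric embedding `X → Y × E`, `E` a real inner product space,
exists if and only if `n ≤ m`, if and only if a quasi-isometric embedding `X → Y` exists.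
(5) For `X = SL_n (D)`, `Y = SL_m (D')`, `n ≥ 3`, `m` arbitrary, `D, D'` any of the real numbers, the complex
numbers, the quaternions, a quasi-isometric embedding `X → Y × E`, `E` a real inner product space, exists if
and only if `bnd ≤ m`, if and only if a quasi-isometric embedding `X → Y` exists; `bnd = n` if `D ⊆ D'`,
`bnd = 2 n - 1` for the complex numbers in the real numbers and for the quaternions in the complex numbers,
`bnd = 4 n - 4` for the quaternions in the real numbers. -/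
theorem result :
    -- (1)
    (∀ X X₀ Y : Dat, Nonempty X₀.Sov → Emb X₀ X →
      (∃ (E : Type) (_ : NormedAddCommGroup E) (_ : InnerProductSpace ℝ E)
        (f : X.Pt → Y.Pt × E), QIE X.dist (pdist Y E) f) →
      Emb X₀ Y ∧ Module.finrank ℝ X₀.b ≤ Module.finrank ℝ Y.b) ∧
    -- (2)
    (∀ X X₀ Y : Dat, Nonempty X₀.Sov → Emb X₀ X → Emb X X₀.C → Nonempty Y.Cpx →
      ((∃ (E : Type) (_ : NormedAddCommGroup E) (_ : InnerProductSpace ℝ E)
          (f : X.Pt → Y.Pt × E), QIE X.dist (pdist Y E) f) ↔ Emb X Y) ∧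
      ((∃ f : X.Pt → Y.Pt, QIE X.dist Y.dist f) ↔ Emb X Y)) ∧
    -- (3)
    (∀ X₀ : Dat, Emb X₀ X₀.C ∧ Emb X₀.C X₀.C ∧ Nonempty X₀.C.Cpx) ∧
    -- (4)
    (∀ (k : ℕ), 0 < k → ∀ 𝔻 𝔻' : Subalgebra ℝ (Matrix (Fin k) (Fin k) ℝ), 𝔻 ≤ 𝔻' →
      ∀ n m : ℕ, 2 ≤ n →
      ((∃ (E : Type) (_ : NormedAddCommGroup E) (_ : InnerProductSpace ℝ E)
          (f : (datD n 𝔻).Pt → (datD m 𝔻').Pt × E),
          QIE (datD n 𝔻).dist (pdist (datD m 𝔻') E) f) ↔ n ≤ m) ∧
      ((∃ f : (datD n 𝔻).Pt → (datD m 𝔻').Pt, QIE (datD n 𝔻).dist (datD m 𝔻').dist f) ↔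
        n ≤ m)) ∧
    -- (5)
    (∀ (i j : Fin 3) (n m : ℕ), 3 ≤ n →
      ((∃ (E : Type) (_ : NormedAddCommGroup E) (_ : InnerProductSpace ℝ E)
          (f : (SLd i n).Pt → (SLd j m).Pt × E),
          QIE (SLd i n).dist (pdist (SLd j m) E) f) ↔ bnd i j n ≤ m) ∧
      ((∃ f : (SLd i n).Pt → (SLd j m).Pt, QIE (SLd i n).dist (SLd j m).dist f) ↔
        bnd i j n ≤ m)) := by
  have hFin : FinStmt := Pool.Agent.QSX.H10.fin_of a_len a_flt a_vrt a_alg a_emb
  refine ⟨?_, ?_, ?_, ?_, Pool.Agent.QSB.H18.n_slf⟩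
  · intro X X₀ Y h0 h1 h2
    have h3 := Pool.Agent.QSX.H10.nsd_sub hFin a_chv a_emb a_qcm X X₀ Y ((sov_iff X₀).1 h0)
      ((emb_iff X₀ X).1 h1) h2
    exact ⟨(emb_iff X₀ Y).2 h3, Pool.Agent.QSX.H10.alg_rank h3⟩
  · intro X X₀ Y h0 h1 h2 h3
    rw [emb_iff X Y]
    exact Pool.Agent.QSX.H10.nsd_cpx hFin a_chv a_emb a_qcm a_cxe a_acm a_len X X₀ Y
      ((sov_iff X₀).1 h0) ((emb_iff X₀ X).1 h1) ((emb_iff X X₀.C).1 h2) h3
  · intro X₀
    exact ⟨(emb_iff _ _).2 (a_cxr _ _ _ ⟨X₀.cpxOfC⟩),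
      (emb_iff _ _).2 (Pool.Agent.QSX.H10.alg_refl _), ⟨X₀.cpxC⟩⟩
  · intro k hk 𝔻 𝔻' h𝔻 n m hn
    exact Pool.Agent.QSX.H10.nsd_D hFin a_chv a_emb a_qcm a_len Pool.Agent.QSX.H10.rsl k hk 𝔻 𝔻' h𝔻
      n m hn

end Pool.Agent.Results.MP_dc0713_gt.NonSplitDomains
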