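import Pool.Agent.Helper10_QSX.ASM
import Pool.Agent.Helper10_QSX.FIN
import Pool.Agent.Helper10_QSX.RSL
import Pool.Agent.Helper10_QSX.RPR
import Pool.Agent.Helper10_QSX.PUB

/-!
# A Euclidean factor does not help: domains whose group is split

**Model.** By the Iwasawa decomposition a symmetric space of noncompact type is a solvable matrix
group `N A`: `A = exp (diag b)`, `N = exp n`, `b` a linear space of vectors, `n` a Lie algebra of
strictly upper triangular matrices with `[diag b, n] ⊆ n`.  This is a datum `D : Dat`; its points are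
`D.Pt = n × b`, `(x, c)` standing for the matrix `exp x * diag (exp c)` (`Dat.mat`), and
`D.dist g h = log max (‖g⁻¹ h‖, ‖h⁻¹ g‖)` with the operator norm.  On the positive definite matrices
`g gᵀ` this is half the Thompson distance, i.e. half the maximum of `|log λ|` over the eigenvalues `λ`
of the relative position (part (7) below), so it is bilipschitz to the invariant Riemannian distance.
`pdist` is the product distance on `D.Pt × E` and `QIE` means quasi-isometric embedding.

**Split data** (`Dat.Sov`): `n` has a basis of rational root vectors with pairwise non proportional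
roots, positive on a common element of `b` and separating the points of `b`, with top roots of the
components: the groups which are split over `ℝ`.

**Emb X Y**: an injective homomorphism of Lie algebras `n_X → n_Y` and an injective linear map
`b_X → b_Y` compatible with the actions (an injective homomorphism `N_X A_X → N_Y A_Y`).

The theorem: for `X` split and every `Y`, a quasi-isometric embedding of `X` in `Y × E`, `E` any real
inner product space, exists if and only if `Emb X Y`, if and only if there is a quasi-isometric
embedding `X → Y`.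
-/

set_option autoImplicit false

namespace Pool.Agent.Results.MP_dc0713_gt.SplitDomain

open Pool.Agent.QSX Pool.Agent.QSX.Asm Matrix

/-- (1), (2) For every split datum `X`, every datum `Y`: there is a quasi-isometric embedding of `X` in
`Y × E` for some real inner product space `E` (for instance `E = ℝ^d`), if and only if there is an
algebraic embedding of `X` in `Y`, if and only if there is a quasi-isometric embedding `X → Y`.
(3)-(6) `SL_k(ℝ)`, `k ≥ 2`, `Sp_{2k}(ℝ)`, `k ≥ 1`, and the split orthogonal groups of the antidiagonal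
form on `ℝ^m` (`m = 3`, `m ≥ 5`) are split, and products of split data are split; the space of a
product is the product of the spaces with the maximum distance.
(7), (8) In terms of positive definite matrices: `2 * dist` is the Thompson distance, and the points
of the datum of `SL_k` are exactly the positive definite matrices of determinant `1`. -/
theorem result :
    -- (1), (2) the main theorem
    (∀ X Y : Dat, Nonempty X.Sov →
      ((∃ (E : Type) (_ : NormedAddCommGroup E) (_ : InnerProductSpace ℝ E)
          (f : X.Pt → Y.Pt × E), QIE X.dist (pdist Y E) f) ↔ Emb X Y) ∧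
      ((∃ f : X.Pt → Y.Pt, QIE X.dist Y.dist f) ↔ Emb X Y)) ∧
    -- (3) `SL_k(ℝ)`
    (∀ k : ℕ, 2 ≤ k → Nonempty (datSL k).Sov) ∧
    -- (4) `Sp_{2k}(ℝ)`
    (∀ k : ℕ, 1 ≤ k → Nonempty (datSP k).Sov) ∧
    -- (5) `SO(p, p)`, `SO(p, p + 1)`
    (∀ m : ℕ, (m = 3 ∨ 5 ≤ m) → Nonempty (datSO m).Sov) ∧
    -- (6) products
    (∀ X Y : Dat, (Nonempty X.Sov → Nonempty Y.Sov → Nonempty (X.prod Y).Sov) ∧
      ∃ φ : X.Pt × Y.Pt → (X.prod Y).Pt, Function.Bijective φ ∧
        ∀ p q, (X.prod Y).dist (φ p) (φ q) = max (X.dist p.1 q.1) (Y.dist p.2 q.2)) ∧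
    -- (7) the distance and positive definite matrices
    (∀ (D : Dat), 0 < D.m → ∀ (p q : D.Pt) (r : ℝ),
      (D.pos q - Real.exp (-r) • D.pos p).PosSemidef ∧
        (Real.exp r • D.pos p - D.pos q).PosSemidef ↔ 2 * D.dist p q ≤ r) ∧
    -- (8) the points for `SL_k(ℝ)`
    (∀ k : ℕ, (∀ p : (datSL k).Pt, ((datSL k).pos p).PosDef ∧ ((datSL k).pos p).det = 1) ∧
      ∀ A : Matrix (Fin (datSL k).m) (Fin (datSL k).m) ℝ, A.PosDef → A.det = 1 →
        ∃! p : (datSL k).Pt, (datSL k).pos p = A) := by
  refine ⟨?_, ?_, ?_, ?_, ?_, ?_, a_cho⟩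
  · intro X Y hX
    rw [emb_iff]
    exact Pool.Agent.QSX.H10.fin_of a_len a_flt a_vrt a_alg a_emb X Y
      (a_chv X ((sov_iff X).1 hX))
  · exact fun k hk => (sov_iff _).2 (Pool.Agent.QSX.H10.rsl k hk)
  · exact fun k hk => (sov_iff _).2 (a_spn k hk)
  · exact fun m hm => (sov_iff _).2 (a_som m hm)
  · intro X Y
    refine ⟨fun hX hY => (sov_iff _).2
      (Pool.Agent.QSX.H10.rpr X Y ((sov_iff X).1 hX) ((sov_iff Y).1 hY)), ?_⟩
    obtain ⟨φ, h1, -, h2⟩ := a_prd X Y
    exact ⟨φ, h1, h2⟩
  · intro D hD p q r
    exact a_dst D.m hD (D.mat p) (D.mat q) r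

end Pool.Agent.Results.MP_dc0713_gt.SplitDomain
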